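import Pool.Agent.W5h28.BL.Conv
import Pool.Agent.W5h93.QD.MotQ
import Pool.Agent.Z125.UN.MotUni

/-!
# Schur-finiteness of motives and systems of bilinear equations

Let `k` be a perfect field. `SFDim D n` says that the motives of the smooth schemes of dimension at most `n` over `k`
are Schur-finite. This is proved to be EQUIVALENT to the Schur-finiteness of the motives with compact support of each of
the following classes of affine schemes:

* the schemes given by `n + 2` equations of bidegree at most `(1, 1)` in two blocks of variables `y`, `z` over `k`;
* the schemes given by `r + 1` equations of bidegree at most `(1, 1)` in `y`, `z`, and ANY NUMBER of equations of degree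
  at most one in `y` alone, and of degree at most one in `z` alone, with coefficients in an algebra `A` of finite type
  over `k`, where `A` is a domain whose motive with compact support is Schur-finite and `dim A + r ≤ n + 1` (or `A` is
  arbitrary and `dim A + r ≤ n`).

For `n = 1` everything is unconditional. So the motives with compact support (and the motives, in the smooth case) of the
following schemes are Schur-finite: the schemes given by three equations of bidegree `≤ (1, 1)` over `k`; by two such
equations over an integral affine curve and any number of equations linear in `y` and linear in `z`; by one such equation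
and any number of equations linear in `y` and linear in `z` over the plane `A = k[x_1, x_2]`. In particular, every closed
subscheme of an affine space which is given by any number of equations of degree at most one in all but two of the
coordinates has a Schur-finite motive with compact support.

The properties of the motives which are used are collected in `IsMotives` (starting files).
-/

set_option autoImplicit false

open CategoryTheory MonoidalCategory AlgebraicGeometry MvPolynomial Pool.Agent.TH137.DG
  Pool.Agent.Y116.UV Pool.Agent.Z125.UN Pool.Agent.W5h93.QD Pool.Agent.W5h28.BL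

namespace Pool.Agent.Results.MP_fc2ced_ag.BilinearSystems

universe v u

/-- The equations `b_j(y) = 0`, `c_l(z) = 0` and `B_i(y, z) = 0` in the variables `y_1, …, y_N` and `z_1, …, z_M`, where
`b_j`, `c_l` are polynomials of degree at most one, and `B_i` are polynomials of bidegree at most `(1, 1)`, with
coefficients in `A`. (The index `none` stands for the constant `1` in the place of a variable.) -/
def eqs {A : Type} [CommRing A] {N M a a' m : ℕ} (b : Fin a → Option (Fin N) → A)
    (c : Fin a' → Option (Fin M) → A) (B : Fin m → Option (Fin N) → Option (Fin M) → A) :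
    Set (MvPolynomial (Fin N ⊕ Fin M) A) :=
  ((Set.range fun j => lp Sum.inl (b j)) ∪ (Set.range fun l => lp Sum.inr (c l))) ∪ Set.range fun i => bq (B i)

variable {k : Type} [Field k] {C : Type u} [Category.{v} C] [MonoidalCategory C]
  [SymmetricCategory C] [Preadditive C] [Linear ℚ C] [Limits.HasZeroObject C] [HasShift C ℤ]
  [∀ n : ℤ, (shiftFunctor C n).Additive] [Pretriangulated C] {D : Motives k C}

/-- Let `A` be an algebra of finite type over `k` of dimension at most `s`, and `s + r ≤ n`, or `s + r ≤ n + 1` and `A`
is a domain such that the motive with compact support of `Spec A` is Schur-finite. Then the motive with compact support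
of the scheme given by `r + 1` equations of bidegree at most `(1, 1)` in `(y, z)`, any number of equations of degree at
most one in `y`, and any number of equations of degree at most one in `z`, with coefficients in `A`, is Schur-finite, and
so is the motive, if the scheme is smooth over `k`. -/
def SFBilinear (D : Motives k C) (n : ℕ) : Prop :=
  ∀ (A : Type) [CommRing A] [Algebra k A] [Algebra.FiniteType k A] (s r : ℕ), ringKrullDim A ≤ s →
    (s + r ≤ n ∨ (s + r ≤ n + 1 ∧ IsDomain A ∧ IsSchurFinite (D.Mc (aff k A)))) →
    ∀ (N M a a' : ℕ) (b : Fin a → Option (Fin N) → A) (c : Fin a' → Option (Fin M) → A)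
      (B : Fin (r + 1) → Option (Fin N) → Option (Fin M) → A),
      SF D (aff k (Sys A (Fin N ⊕ Fin M) (eqs b c B)))

/-- The motives with compact support of the schemes given by `m` equations of bidegree at most `(1, 1)` over `k` are
Schur-finite. -/
def SFOver (D : Motives k C) (m : ℕ) : Prop :=
  ∀ (N M : ℕ) (B : Fin m → Option (Fin N) → Option (Fin M) → k),
    IsSchurFinite (D.Mc (aff k (Sys k (Fin N ⊕ Fin M) (Set.range fun i => bq (B i)))))

/-- For the schemes given by any number of equations of degree at most one in `y_1, …, y_N` whose coefficients are
polynomials in `x_1, …, x_m` over `k`, the motive with compact support is Schur-finite, and so is the motive, if the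
scheme is smooth. -/
def SFLinear (D : Motives k C) (m : ℕ) : Prop :=
  ∀ (N a : ℕ) (b : Fin a → Option (Fin N) → MvPolynomial (Fin m) k),
    SF D (aff k (Sys (MvPolynomial (Fin m) k) (Fin N) (Set.range fun j => lp id (b j))))

lemma dim_field : ringKrullDim k ≤ ((0 : ℕ) : WithBot ℕ∞) := by
  rw [ringKrullDim_eq_zero_of_field]
  exact le_rfl

lemma over_of (hD : IsMotives D) {n : ℕ} (h : SFBilinear D n) : SFOver D (n + 2) := by
  intro N M B
  have h1 : IsSchurFinite (D.Mc (aff k k)) := (sf_iso hD.point).mpr sf_unit
  have h2 := (h k 0 (n + 1) dim_field (Or.inr ⟨by omega, inferInstance, h1⟩) N M 0 0 (fun j => j.elim0)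
    (fun j => j.elim0) B).1
  have e : eqs (fun j : Fin 0 => (j.elim0 : Option (Fin N) → k)) (fun j : Fin 0 => (j.elim0 : Option (Fin M) → k)) B =
      Set.range fun i => bq (B i) := by
    rw [eqs, Set.range_eq_empty, Set.range_eq_empty, Set.union_empty, Set.empty_union]
  rw [e] at h2
  exact h2

/-- **Schur-finiteness of motives and systems of bilinear equations.** Let `k` be a perfect field.

(1) For every `n`, the motives of the smooth schemes of dimension at most `n` are Schur-finite if and only if
`SFBilinear D n` is true, and if and only if the motives with compact support of the schemes given by `n + 2` equations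
of bidegree at most `(1, 1)` over `k` are Schur-finite.

(2) In this case, the motives with compact support (and the motives, in the smooth case) of the schemes given by any
number of equations of degree at most one in all but `n + 1` of the coordinates are Schur-finite.

(3) All this is true for `n = 1`. -/
theorem result [PerfectField k] (hD : IsMotives D) :
    (∀ n : ℕ, (SFDim D n ↔ SFBilinear D n) ∧ (SFDim D n ↔ SFOver D (n + 2)) ∧ (SFDim D n → SFLinear D (n + 1))) ∧
      SFBilinear D 1 ∧ SFOver D 3 ∧ SFLinear D 2 := by
  have hB := bnd_sf hD
  have hK : ∀ n : ℕ, SFDim D n → ∀ (A : Type) [CommRing A] [Algebra k A] [Algebra.FiniteType k A],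
      ringKrullDim A ≤ n → IsSchurFinite (D.Mc (aff k A)) := by
    intro n h A _ _ _ hA
    refine dim_smooth hB n (fun X hX hs hX' => (hD.duality X hX hs).mp (h X hX hs hX')) _ (ft_aff True) ?_
    rw [topDim_aff]
    exact hA
  have key : ∀ n : ℕ, SFDim D n → SFBilinear D n := by
    intro n h A _ _ _ s r hs hA N M a a' b c B
    have h3 : IsSchurFinite (D.Mc (aff k (Sys A (Fin N ⊕ Fin M) (eqs b c B)))) :=
      bil_dim hB (hK n h) A hs hA b c B
    exact ⟨h3, fun hs => (hD.duality _ (ft_aff True) hs).mpr h3⟩
  have back : ∀ n : ℕ, SFOver D (n + 2) → SFDim D n := by
    intro n h X hX hs hn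
    rw [hD.duality X hX hs]
    exact dim_of_bil hB h X hX hn
  have lin : ∀ n : ℕ, SFDim D n → SFLinear D (n + 1) := by
    intro n h N a b
    have hsp : IsSchurFinite (D.Mc (aff k (MvPolynomial (Fin (n + 1)) k))) := hB.space (n + 1)
    have hd : ringKrullDim (MvPolynomial (Fin (n + 1)) k) ≤ ((n + 1 : ℕ) : WithBot ℕ∞) := by
      rw [MvPolynomial.ringKrullDim_of_isNoetherianRing, ringKrullDim_eq_zero_of_field, zero_add]
      simp
    have h3 : IsSchurFinite (D.Mc (aff k (Sys (MvPolynomial (Fin (n + 1)) k) (Fin N)
        (Set.range fun j => lp id (b j))))) :=
      lin_all hB (kk_cls hB (hK n h)) (fun A _ _ _ hA => kk_prop (hK n h) A hA) (Fintype.card (Fin N)) _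
        (Or.inr ⟨inferInstance, hd, hsp⟩) (Fin N) rfl (Fin a) _ (fun j => deg_lp _ _)
    exact ⟨h3, fun hs => (hD.duality _ (ft_aff True) hs).mpr h3⟩
  have one : SFDim D 1 := fun X hX hs hn => hD.curves X hX hs (by exact_mod_cast hn)
  exact ⟨fun n => ⟨⟨key n, fun h => back n (over_of hD h)⟩, ⟨fun h => over_of hD (key n h), back n⟩, lin n⟩,
    key 1 one, over_of hD (key 1 one), lin 1 one⟩

end Pool.Agent.Results.MP_fc2ced_ag.BilinearSystems
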