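import Pool.Agent.W5h93.QD.Conv
import Pool.Agent.W5h93.QD.MotQ
import Pool.Agent.Z125.UN.MotUni

/-!
# Schur-finiteness of motives and systems of quadratic equations
-/

set_option autoImplicit false

open CategoryTheory MonoidalCategory AlgebraicGeometry MvPolynomial Pool.Agent.TH137.DG
  Pool.Agent.Y116.UV Pool.Agent.Z125.UN Pool.Agent.W5h93.QD

namespace Pool.Agent.Results.MP_fc2ced_ag.QuadraticSystems

universe v u

variable {k : Type} [Field k] {C : Type u} [Category.{v} C] [MonoidalCategory C]
  [SymmetricCategory C] [Preadditive C] [Linear ℚ C] [Limits.HasZeroObject C] [HasShift C ℤ]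
  [∀ n : ℤ, (shiftFunctor C n).Additive] [Pretriangulated C] {D : Motives k C}

/-- **Schur-finiteness of motives and systems of quadratic equations.** Let `k` be a perfect field of
characteristic different from two.

(1) If the motives of the smooth schemes of dimension at most `n` are Schur-finite, then so are the
motives with compact support (and the motives, in the smooth case) of the subschemes of the affine spaces
over `Spec A` given by `r + 1` quadratic equations and any number of linear equations in the coordinates,
where `dim A + r ≤ n`.

(2) If the motives with compact support of the affine schemes given by `n + 2` quadratic equations over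
`k` are Schur-finite, then the motives of all smooth schemes of dimension at most `n` are Schur-finite.

(3) The conclusion of (1) is true for `n = 1`: for systems of two quadratic equations and linear equations
over `k`, and for families of affine quadrics over affine curves. -/
theorem result [PerfectField k] (h2 : (2 : k) ≠ 0) (hD : IsMotives D) (hC : DoubleCoverSummand D) :
    (∀ n : ℕ, SFDim D n → SFQuadrics D n) ∧ (∀ n : ℕ, SFSystems D (n + 2) → SFDim D n) ∧
      SFQuadrics D 1 := by
  have hB := bnd_sf hD
  have hDC : DoubleCovers fun X : Sch k => IsSchurFinite (D.Mc X) := by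
    intro A _ _ _ u hu h
    obtain ⟨s, r, hs⟩ := hC A u hu
    exact sf_retract s r hs h
  have key : ∀ n : ℕ, SFDim D n → SFQuadrics D n := by
    intro n h A _ _ _ s r hA hn N m b q hb hq
    have h3 : IsSchurFinite (D.Mc (aff k (Sys A (Fin N) (Set.range b ∪ Set.range q)))) :=
      quad_of_dim hB hDC h2 (dim_smooth hB n fun X hX hs hX' =>
        (hD.duality X hX hs).mp (h X hX hs hX')) hA hn b q hb hq
    exact ⟨h3, fun hs => (hD.duality _ (ft_aff True) hs).mpr h3⟩
  refine ⟨key, fun n h X hX hs hn => ?_, key 1 fun X hX hs hn => hD.curves X hX hs ?_⟩
  · rw [hD.duality X hX hs]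
    exact dim_of_quad hB h X hX hn
  · exact_mod_cast hn

end Pool.Agent.Results.MP_fc2ced_ag.QuadraticSystems
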