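import Pool.Agent.W5h68.SP.Fm2
import Pool.Agent.W5h68.SP.MotK
import Pool.Agent.W5h93.QD.MotQ
import Pool.Agent.Z125.UN.MotUni

/-!
# Schur-finiteness of motives and read-once formulas
-/

set_option autoImplicit false

open CategoryTheory MonoidalCategory AlgebraicGeometry MvPolynomial Pool.Agent.TH137.DG
  Pool.Agent.Y116.UV Pool.Agent.Z125.UN Pool.Agent.W5h93.QD Pool.Agent.W5h68.SP

namespace Pool.Agent.Results.MP_fc2ced_ag.ReadOnceFormulas

universe v u

variable {k : Type} [Field k] {C : Type u} [Category.{v} C] [MonoidalCategory C]
  [SymmetricCategory C] [Preadditive C] [Linear ℚ C] [Limits.HasZeroObject C] [HasShift C ℤ]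
  [∀ n : ℤ, (shiftFunctor C n).Additive] [Pretriangulated C] {D : Motives k C}

/-- **Schur-finiteness of motives and read-once formulas.** Let `k` be a perfect field. If the motives of
the smooth schemes of dimension at most `n` are Schur-finite, then so are the motives with compact support
(and the motives, in the smooth case) of all closed subschemes `h(f_1, …, f_r) = 0`, `h ∈ S`, of affine
spaces, where `f_1, …, f_r` are polynomials in disjoint sets of variables given by read-once formulas with
quasi-homogeneous gates in at most `n + 1` variables, and the scheme `S = 0` has dimension at most `n`.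

The conclusion is true for `n = 1`: for example for all hypersurfaces `f = 0` and `f = c`, where the
polynomial `f` is obtained by sums and products from binary forms in disjoint pairs of variables. -/
theorem result [PerfectField k] (hD : IsMotivesK D) :
    (∀ n : ℕ, SFDim D n → ReadOnceSystems k n (SF D)) ∧ ReadOnceSystems k 1 (SF D) := by
  have hB := bnd_sf hD.toIsMotives
  have hK : ClK k fun A => IsSchurFinite (D.Mc (aff k A)) :=
    { Cl.of_bnd hB with
      prod := fun {A B} _ _ _ _ _ _ hA hB =>
        (sf_iso (hD.kunneth A B)).mpr (hD.tensor _ _ hA hB)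
      cyc := fun {A} _ _ _ d u hd hu h => by
        obtain ⟨s, r, hs⟩ := hD.covering A d u hd hu
        exact sf_retract s r hs h }
  have key : ∀ n : ℕ, SFDim D n → ReadOnceSystems k n (SF D) := by
    intro n h r σ f hf S hS
    have h1 : ∀ (A : Type) [CommRing A] [Algebra k A] [Algebra.FiniteType k A],
        ringKrullDim A ≤ n → IsSchurFinite (D.Mc (aff k A)) := by
      intro A _ _ _ hA
      refine dim_smooth hB n (fun X hX hs hX' => (hD.duality X hX hs).mp (h X hX hs hX'))
        (aff k A) (ft_aff True) ?_
      rw [topDim_aff]
      exact hA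
    have h2 := readOnce_systems hK h1 σ f hf S hS
    have h3 : ∀ i, Finite (σ i) := fun i => (readOnce_good hK h1 (hf i)).1
    exact ⟨h2, fun hs => (hD.duality _ (ft_aff True) hs).mpr h2⟩
  refine ⟨key, key 1 fun X hX hs hn => hD.curves X hX hs ?_⟩
  exact_mod_cast hn

end Pool.Agent.Results.MP_fc2ced_ag.ReadOnceFormulas
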