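import Pool.Agent.W5h93.QD.MotQ
import Pool.Agent.W5h93.QD.Conv
import Pool.Agent.Z125.UN.MotUni
import Pool.Agent.W5h38.TV.Few

/-!
# Schur-finiteness of motives and torus actions of complexity at most `n`

Let `X` be a closed subscheme of an affine space which is stable under a torus acting diagonally. It is
of complexity at most `n` if each stratum of `X` (given by the vanishing and non-vanishing of the
coordinates) has dimension at most `n` plus the dimension of the orbits in the stratum.

If the motives of the smooth schemes of dimension at most `n` are Schur-finite, then so are the motives
with compact support of all torus schemes of complexity at most `n`, of any dimension and with any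
singularities, and of all schemes built from them by closed-open decompositions (for example the closed
subschemes of projective spaces stable under a torus). For `n = 1`, where the hypothesis is the theorem
of Guletskii and Mazza, this is unconditional.

Explicit members of this class are the inverse images of the cones of dimension at most `n + 1` under
all monomial maps between affine spaces, also with additional equations with two terms, and the schemes
given by `c` linearly independent equations with at most `c + n + 1` monomials altogether, also with
additional equations with two terms: their strata are stable under tori of complexity at most `n`. So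
for `n = 1` the motives of all hypersurfaces given by polynomials with three terms are Schur-finite, in
all dimensions and with all singularities. (This part is a joint work with helper68.)

Proof. The strata are split off one after the other. A stratum is the spectrum of a ring `A` generated by
units `x_i` which is graded by `ℤ ^ m`. If some last weight `v_i` is not zero, let `g` be the greatest
common divisor of the `v_i` and `y` a monomial of last weight `g`; then `A = B[t, 1 / t]`, where
`B = A / (y - 1)`, by `x_i ↦ x_i t ^ (v_i / g)`, and `B` is graded by `ℤ ^ (m - 1)`, of dimension and of
rank smaller by one.
-/

set_option autoImplicit false

open CategoryTheory MonoidalCategory AlgebraicGeometry MvPolynomial Pool.Agent.TH137.DG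
  Pool.Agent.Y116.UV Pool.Agent.Z125.UN Pool.Agent.W5h93.QD Pool.Agent.W5h38.TV
  Pool.Agent.W5h68.SP

namespace Pool.Agent.Results.MP_fc2ced_ag.TorusActions

universe v u

variable {k : Type} [Field k] {C : Type u} [Category.{v} C] [MonoidalCategory C]
  [SymmetricCategory C] [Preadditive C] [Linear ℚ C] [Limits.HasZeroObject C] [HasShift C ℤ]
  [∀ n : ℤ, (shiftFunctor C n).Additive] [Pretriangulated C] {D : Motives k C}

/-- **Schur-finiteness of motives and torus actions.** Let `k` be a perfect field.

(1) For every `n` the motives of all smooth schemes of dimension at most `n` are Schur-finite if and
only if the motives with compact support (and the motives, in the smooth case) of all schemes built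
from torus schemes of complexity at most `n` are Schur-finite.

(2) This is so for `n = 1`.

(3) The inverse images of the cones of dimension at most `n + 1` under monomial maps, and the schemes
given by `c` linearly independent equations with at most `c + n + 1` monomials, both also with
additional equations with at most two terms, are built from torus schemes of complexity at most `n`. -/
theorem result [PerfectField k] (hD : IsMotives D) :
    (∀ n : ℕ, SFDim D n ↔ ∀ X : Sch k, FT True X → Built n X → SF D X) ∧
      (∀ X : Sch k, FT True X → Built 1 X → SF D X) ∧
      ∀ n : ℕ, Cones (k := k) n (Built n) ∧ Sparse (k := k) n (Built n) := by
  have hB := bnd_sf hD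
  have key : ∀ n : ℕ, SFDim D n ↔ ∀ X : Sch k, FT True X → Built n X → SF D X := by
    intro n
    constructor
    · intro h X hX hb
      have h1 : IsSchurFinite (D.Mc X) := (dim_iff hB n).mp (fun Y hY hs hn =>
        (hD.duality Y hY hs).mp (h Y hY hs hn)) X hb
      exact ⟨h1, fun hs => (hD.duality X hX hs).mpr h1⟩
    · intro h X hX hs hn
      rw [hD.duality X hX hs]
      exact of_affine_dim hB (fun A _ _ _ hA => (h _ (ft_aff True) (built_of_dim hA)).1) X hX hn
  exact ⟨key, (key 1).mp fun X hX hs hn => hD.curves X hX hs (by exact_mod_cast hn),
    fun n => ⟨cones_built n, sparse_built n⟩⟩

end Pool.Agent.Results.MP_fc2ced_ag.TorusActions
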